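import Pool.Agent.helper41.G5.Spec

/-!
# MP_5823cb_al: row 5BL (Bilu-Linial), helper76

Proof: no rounding. `BL_pick`: a linear form on a box is at most twice its value on a subset sum. `BL_box`: two applications. Dyadic classes `Int.log 2 |x j|`; near classes: `BL_box`; far classes: row and column sums.
-/

set_option autoImplicit false

namespace DH5

open Finset

theorem BL_pick {J : Type} (T : Finset J) (c u : J → ℝ) (M : ℝ) (hM : 0 ≤ M) (hu : ∀ j ∈ T, |u j| ≤ M) :
    ∃ T' ⊆ T, |∑ j ∈ T, c j * u j| ≤ 2 * M * |∑ j ∈ T', c j| := by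
  classical
  have h1 : |∑ j ∈ T, c j * u j| ≤ (∑ j ∈ T, |c j|) * M := by
    rw [sum_mul]
    refine (abs_sum_le_sum_abs _ _).trans (sum_le_sum fun j hj => ?_)
    rw [abs_mul]
    exact mul_le_mul_of_nonneg_left (hu j hj) (abs_nonneg _)
  have hA : |∑ j ∈ T.filter (fun j => 0 ≤ c j), c j| = ∑ j ∈ T.filter (fun j => 0 ≤ c j), |c j| := by
    rw [abs_of_nonneg (sum_nonneg fun j hj => (mem_filter.1 hj).2)]
    exact sum_congr rfl fun j hj => (abs_of_nonneg (mem_filter.1 hj).2).symm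
  have hB : |∑ j ∈ T.filter (fun j => ¬ 0 ≤ c j), c j| = ∑ j ∈ T.filter (fun j => ¬ 0 ≤ c j), |c j| := by
    rw [abs_of_nonpos (sum_nonpos fun j hj => (not_le.1 (mem_filter.1 hj).2).le), ← sum_neg_distrib]
    exact sum_congr rfl fun j hj => (abs_of_nonpos (not_le.1 (mem_filter.1 hj).2).le).symm
  have h2 : ∑ j ∈ T, |c j| = |∑ j ∈ T.filter (fun j => 0 ≤ c j), c j| + |∑ j ∈ T.filter (fun j => ¬ 0 ≤ c j), c j| := by
    rw [hA, hB]
    exact (sum_filter_add_sum_filter_not T (fun j => 0 ≤ c j) (fun j => |c j|)).symm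
  rcases le_total |∑ j ∈ T.filter (fun j => 0 ≤ c j), c j| |∑ j ∈ T.filter (fun j => ¬ 0 ≤ c j), c j| with h3 | h3
  · refine ⟨T.filter (fun j => ¬ 0 ≤ c j), filter_subset _ _, h1.trans ?_⟩
    rw [h2]
    nlinarith
  · refine ⟨T.filter (fun j => 0 ≤ c j), filter_subset _ _, h1.trans ?_⟩
    rw [h2]
    nlinarith

theorem BL_box {Z J : Type} (a : Matrix Z J ℝ) (β : ℝ) (hβ : 0 ≤ β)
    (h : ∀ (S : Finset Z) (T : Finset J), |∑ z ∈ S, ∑ j ∈ T, a z j| ≤ β * √((#S : ℝ) * #T))
    (S : Finset Z) (T : Finset J) (v : Z → ℝ) (u : J → ℝ) (M' M : ℝ) (hM' : 0 ≤ M') (hM : 0 ≤ M)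
    (hv : ∀ z ∈ S, |v z| ≤ M') (hu : ∀ j ∈ T, |u j| ≤ M) :
    |∑ z ∈ S, ∑ j ∈ T, v z * a z j * u j| ≤ 4 * M' * M * (β * √((#S : ℝ) * #T)) := by
  have e1 : ∑ z ∈ S, ∑ j ∈ T, v z * a z j * u j = ∑ j ∈ T, (∑ z ∈ S, v z * a z j) * u j := by
    rw [sum_comm]
    exact sum_congr rfl fun j _ => (sum_mul _ _ _).symm
  obtain ⟨T', hT', h1⟩ := BL_pick T (fun j => ∑ z ∈ S, v z * a z j) u M hM hu
  obtain ⟨S', hS', h2⟩ := BL_pick S (fun z => ∑ j ∈ T', a z j) v M' hM' hv
  have e2 : ∑ j ∈ T', ∑ z ∈ S, v z * a z j = ∑ z ∈ S, (∑ j ∈ T', a z j) * v z := by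
    rw [sum_comm]
    refine sum_congr rfl fun z _ => ?_
    rw [sum_mul]
    exact sum_congr rfl fun j _ => mul_comm _ _
  rw [e1]
  refine h1.trans ?_
  have h3 := h S' T'
  have h4 : √((#S' : ℝ) * #T') ≤ √((#S : ℝ) * #T) := by
    apply Real.sqrt_le_sqrt
    have a1 : (#S' : ℝ) ≤ #S := by exact_mod_cast card_le_card hS'
    have a2 : (#T' : ℝ) ≤ #T := by exact_mod_cast card_le_card hT'
    exact mul_le_mul a1 a2 (by positivity) (by positivity)
  have h5 : |∑ j ∈ T', ∑ z ∈ S, v z * a z j| ≤ 2 * M' * (β * √((#S : ℝ) * #T)) := by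
    rw [e2]
    exact h2.trans (mul_le_mul_of_nonneg_left (h3.trans (mul_le_mul_of_nonneg_left h4 hβ)) (by positivity))
  calc 2 * M * |∑ j ∈ T', ∑ z ∈ S, v z * a z j| ≤ 2 * M * (2 * M' * (β * √((#S : ℝ) * #T))) :=
        mul_le_mul_of_nonneg_left h5 (by positivity)
    _ = 4 * M' * M * (β * √((#S : ℝ) * #T)) := by ring

/-- the sum of the squares of a dyadic class. -/
theorem BL_cls {J : Type} [Fintype J] (x : J → ℝ) :
    ∑ k ∈ (univ.filter (fun j => x j ≠ 0)).image (fun j => Int.log 2 |x j|),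
      (4 : ℝ) ^ k * #((univ.filter (fun j => x j ≠ 0)).filter (fun j => Int.log 2 |x j| = k)) ≤ ∑ j, x j ^ 2 := by
  classical
  have h1 : ∑ j ∈ univ.filter (fun j => x j ≠ 0), x j ^ 2 ≤ ∑ j, x j ^ 2 :=
    sum_le_sum_of_subset_of_nonneg (subset_univ _) fun j _ _ => sq_nonneg _
  refine le_trans ?_ h1
  rw [← sum_fiberwise_of_maps_to (s := univ.filter (fun j => x j ≠ 0)) (t := (univ.filter (fun j => x j ≠ 0)).image (fun j => Int.log 2 |x j|))
    (g := fun j => Int.log 2 |x j|) (fun j hj => mem_image_of_mem _ hj)]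
  refine sum_le_sum fun k _ => ?_
  rw [mul_comm, ← nsmul_eq_mul]
  refine card_nsmul_le_sum _ _ _ fun j hj => ?_
  rw [mem_filter, mem_filter] at hj
  have hx : 0 < |x j| := abs_pos.2 hj.1.2
  have h2 : (2 : ℝ) ^ k ≤ |x j| := by
    have := Int.zpow_log_le_self (b := 2) (R := ℝ) (by norm_num) hx
    rw [hj.2] at this
    exact_mod_cast this
  have h3 : (4 : ℝ) ^ k = (2 : ℝ) ^ k * (2 : ℝ) ^ k := by
    rw [← mul_zpow]
    norm_num
  rw [h3, ← sq_abs (x j), sq]
  exact mul_le_mul h2 h2 (by positivity) (abs_nonneg _)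

theorem BL_main {Z J : Type} [Fintype Z] [Fintype J] (a : Matrix Z J ℝ) (L β : ℝ) (hβ : 0 < β) (γ : ℕ)
    (hγ : L ≤ β * 2 ^ γ) (hr : ∀ z, ∑ j, |a z j| ≤ L) (hc : ∀ j, ∑ z, |a z j| ≤ L)
    (h : ∀ (S : Finset Z) (T : Finset J), |∑ z ∈ S, ∑ j ∈ T, a z j| ≤ β * √((#S : ℝ) * #T))
    (x : J → ℝ) (y : Z → ℝ) :
    |∑ z, ∑ j, y z * a z j * x j| ≤ (8 * (2 * γ + 1) + 1) * β * (∑ j, x j ^ 2 + ∑ z, y z ^ 2) := by
  classical
  set k : J → ℤ := fun j => Int.log 2 |x j| with hk
  set l : Z → ℤ := fun z => Int.log 2 |y z| with hl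
  set J0 : Finset J := univ.filter (fun j => x j ≠ 0) with hJ0
  set Z0 : Finset Z := univ.filter (fun z => y z ≠ 0) with hZ0
  set KK : Finset ℤ := J0.image k with hKK
  set LL : Finset ℤ := Z0.image l with hLL
  have hk1 : ∀ j ∈ J0, (2 : ℝ) ^ (k j) ≤ |x j| := by
    intro j hj
    have := Int.zpow_log_le_self (b := 2) (R := ℝ) (by norm_num) (abs_pos.2 (mem_filter.1 hj).2)
    exact_mod_cast this
  have hk2 : ∀ j, |x j| ≤ (2 : ℝ) ^ (k j + 1) := by
    intro j
    have := (Int.lt_zpow_succ_log_self (b := 2) (R := ℝ) (by norm_num) |x j|).le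
    exact_mod_cast this
  have hl1 : ∀ z ∈ Z0, (2 : ℝ) ^ (l z) ≤ |y z| := by
    intro z hz
    have := Int.zpow_log_le_self (b := 2) (R := ℝ) (by norm_num) (abs_pos.2 (mem_filter.1 hz).2)
    exact_mod_cast this
  have hl2 : ∀ z, |y z| ≤ (2 : ℝ) ^ (l z + 1) := by
    intro z
    have := (Int.lt_zpow_succ_log_self (b := 2) (R := ℝ) (by norm_num) |y z|).le
    exact_mod_cast this
  set X : ℝ := ∑ j, x j ^ 2 with hX
  set Y : ℝ := ∑ z, y z ^ 2 with hY
  -- restriction to the supports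
  have e0 : ∑ z, ∑ j, y z * a z j * x j = ∑ z ∈ Z0, ∑ j ∈ J0, y z * a z j * x j := by
    have e1 : ∀ z, ∑ j, y z * a z j * x j = ∑ j ∈ J0, y z * a z j * x j := by
      intro z
      symm
      apply sum_subset (subset_univ _)
      intro j _ hj
      have : x j = 0 := by
        by_contra h0
        exact hj (mem_filter.2 ⟨mem_univ _, h0⟩)
      rw [this, mul_zero]
    rw [sum_congr rfl fun z _ => e1 z]
    symm
    apply sum_subset (subset_univ _)
    intro z _ hz
    have : y z = 0 := by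
      by_contra h0
      exact hz (mem_filter.2 ⟨mem_univ _, h0⟩)
    simp [this]
  -- three parts
  have e2 : ∀ z j, y z * a z j * x j = (if |k j - l z| ≤ γ then y z * a z j * x j else 0) +
      (if l z + γ < k j then y z * a z j * x j else 0) + (if k j + γ < l z then y z * a z j * x j else 0) := by
    intro z j
    by_cases h1 : |k j - l z| ≤ γ
    · have h2 := abs_le.1 h1
      rw [if_pos h1, if_neg (by omega), if_neg (by omega)]
      ring
    · by_cases h2 : l z + γ < k j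
      · rw [if_neg h1, if_pos h2, if_neg (by omega)]
        ring
      · have h3 : k j + γ < l z := by
          rw [abs_le] at h1
          by_contra h4
          exact h1 ⟨by omega, by omega⟩
        rw [if_neg h1, if_neg h2, if_pos h3]
        ring
  -- far part 1
  have f1 : |∑ z ∈ Z0, ∑ j ∈ J0, (if l z + γ < k j then y z * a z j * x j else 0)| ≤ β * X := by
    rw [sum_comm]
    refine (abs_sum_le_sum_abs _ _).trans ?_
    have h1 : ∀ j ∈ J0, |∑ z ∈ Z0, (if l z + γ < k j then y z * a z j * x j else 0)| ≤ β * x j ^ 2 := by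
      intro j hj
      refine (abs_sum_le_sum_abs _ _).trans ?_
      have h2 : ∀ z ∈ Z0, |(if l z + γ < k j then y z * a z j * x j else 0)| ≤ (|x j| ^ 2 / 2 ^ γ) * |a z j| := by
        intro z hz
        by_cases h3 : l z + γ < k j
        · rw [if_pos h3, abs_mul, abs_mul]
          have h4 : |y z| ≤ |x j| / 2 ^ γ := by
            rw [le_div_iff₀ (by positivity)]
            calc |y z| * 2 ^ γ ≤ (2 : ℝ) ^ (l z + 1) * 2 ^ γ := mul_le_mul_of_nonneg_right (hl2 z) (by positivity)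
              _ = (2 : ℝ) ^ (l z + 1 + γ) := by
                rw [zpow_add₀ (by norm_num : (2 : ℝ) ≠ 0) (l z + 1) γ, zpow_natCast]
              _ ≤ (2 : ℝ) ^ (k j) := zpow_le_zpow_right₀ (by norm_num) (by omega)
              _ ≤ |x j| := hk1 j hj
          calc |y z| * |a z j| * |x j| ≤ |x j| / 2 ^ γ * |a z j| * |x j| := by gcongr
            _ = (|x j| ^ 2 / 2 ^ γ) * |a z j| := by ring
        · rw [if_neg h3, abs_zero]
          positivity
      refine (sum_le_sum h2).trans ?_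
      rw [← mul_sum]
      have h5 : ∑ z ∈ Z0, |a z j| ≤ L :=
        (sum_le_sum_of_subset_of_nonneg (subset_univ _) fun _ _ _ => abs_nonneg _).trans (hc j)
      calc (|x j| ^ 2 / 2 ^ γ) * ∑ z ∈ Z0, |a z j| ≤ (|x j| ^ 2 / 2 ^ γ) * (β * 2 ^ γ) :=
            mul_le_mul_of_nonneg_left (h5.trans hγ) (by positivity)
        _ = β * x j ^ 2 := by
            rw [sq_abs]
            field_simp
    refine (sum_le_sum h1).trans ?_
    rw [← mul_sum]
    exact mul_le_mul_of_nonneg_left (sum_le_sum_of_subset_of_nonneg (subset_univ _) fun _ _ _ => sq_nonneg _) hβ.le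
  -- far part 2
  have f2 : |∑ z ∈ Z0, ∑ j ∈ J0, (if k j + γ < l z then y z * a z j * x j else 0)| ≤ β * Y := by
    refine (abs_sum_le_sum_abs _ _).trans ?_
    have h1 : ∀ z ∈ Z0, |∑ j ∈ J0, (if k j + γ < l z then y z * a z j * x j else 0)| ≤ β * y z ^ 2 := by
      intro z hz
      refine (abs_sum_le_sum_abs _ _).trans ?_
      have h2 : ∀ j ∈ J0, |(if k j + γ < l z then y z * a z j * x j else 0)| ≤ (|y z| ^ 2 / 2 ^ γ) * |a z j| := by
        intro j hj
        by_cases h3 : k j + γ < l z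
        · rw [if_pos h3, abs_mul, abs_mul]
          have h4 : |x j| ≤ |y z| / 2 ^ γ := by
            rw [le_div_iff₀ (by positivity)]
            calc |x j| * 2 ^ γ ≤ (2 : ℝ) ^ (k j + 1) * 2 ^ γ := mul_le_mul_of_nonneg_right (hk2 j) (by positivity)
              _ = (2 : ℝ) ^ (k j + 1 + γ) := by
                rw [zpow_add₀ (by norm_num : (2 : ℝ) ≠ 0) (k j + 1) γ, zpow_natCast]
              _ ≤ (2 : ℝ) ^ (l z) := zpow_le_zpow_right₀ (by norm_num) (by omega)
              _ ≤ |y z| := hl1 z hz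
          calc |y z| * |a z j| * |x j| ≤ |y z| * |a z j| * (|y z| / 2 ^ γ) := by gcongr
            _ = (|y z| ^ 2 / 2 ^ γ) * |a z j| := by ring
        · rw [if_neg h3, abs_zero]
          positivity
      refine (sum_le_sum h2).trans ?_
      rw [← mul_sum]
      have h5 : ∑ j ∈ J0, |a z j| ≤ L :=
        (sum_le_sum_of_subset_of_nonneg (subset_univ _) fun _ _ _ => abs_nonneg _).trans (hr z)
      calc (|y z| ^ 2 / 2 ^ γ) * ∑ j ∈ J0, |a z j| ≤ (|y z| ^ 2 / 2 ^ γ) * (β * 2 ^ γ) :=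
            mul_le_mul_of_nonneg_left (h5.trans hγ) (by positivity)
        _ = β * y z ^ 2 := by
            rw [sq_abs]
            field_simp
    refine (sum_le_sum h1).trans ?_
    rw [← mul_sum]
    exact mul_le_mul_of_nonneg_left (sum_le_sum_of_subset_of_nonneg (subset_univ _) fun _ _ _ => sq_nonneg _) hβ.le
  -- near part
  have hnear : |∑ z ∈ Z0, ∑ j ∈ J0, (if |k j - l z| ≤ γ then y z * a z j * x j else 0)| ≤ 8 * β * (2 * γ + 1) * (X + Y) := by
    have e3 : ∑ z ∈ Z0, ∑ j ∈ J0, (if |k j - l z| ≤ γ then y z * a z j * x j else 0) =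
        ∑ m ∈ LL, ∑ q ∈ KK, ∑ z ∈ Z0.filter (fun z => l z = m), ∑ j ∈ J0.filter (fun j => k j = q),
          (if |k j - l z| ≤ γ then y z * a z j * x j else 0) := by
      rw [← sum_fiberwise_of_maps_to (s := Z0) (t := LL) (g := l) (fun z hz => mem_image_of_mem _ hz)]
      refine sum_congr rfl fun m _ => ?_
      symm
      rw [sum_comm]
      refine sum_congr rfl fun z _ => ?_
      exact sum_fiberwise_of_maps_to (s := J0) (t := KK) (g := k) (fun j hj => mem_image_of_mem _ hj) _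
    rw [e3]
    have h1 : ∀ m ∈ LL, ∀ q ∈ KK, |∑ z ∈ Z0.filter (fun z => l z = m), ∑ j ∈ J0.filter (fun j => k j = q),
        (if |k j - l z| ≤ γ then y z * a z j * x j else 0)| ≤
        if |q - m| ≤ γ then 8 * β * ((4 : ℝ) ^ q * #(J0.filter (fun j => k j = q)) + (4 : ℝ) ^ m * #(Z0.filter (fun z => l z = m))) else 0 := by
      intro m _ q _
      by_cases hqm : |q - m| ≤ γ
      · rw [if_pos hqm]
        have e4 : ∑ z ∈ Z0.filter (fun z => l z = m), ∑ j ∈ J0.filter (fun j => k j = q),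
            (if |k j - l z| ≤ γ then y z * a z j * x j else 0) =
            ∑ z ∈ Z0.filter (fun z => l z = m), ∑ j ∈ J0.filter (fun j => k j = q), y z * a z j * x j := by
          refine sum_congr rfl fun z hz => sum_congr rfl fun j hj => ?_
          rw [if_pos]
          rw [(mem_filter.1 hz).2, (mem_filter.1 hj).2]
          exact hqm
        rw [e4]
        refine (BL_box a β hβ.le h _ _ y x ((2 : ℝ) ^ (m + 1)) ((2 : ℝ) ^ (q + 1)) (by positivity) (by positivity) ?_ ?_).trans ?_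
        · intro z hz
          have := hl2 z
          rw [(mem_filter.1 hz).2] at this
          exact this
        · intro j hj
          have := hk2 j
          rw [(mem_filter.1 hj).2] at this
          exact this
        · set s : ℝ := (#(J0.filter (fun j => k j = q)) : ℝ) with hs
          set t : ℝ := (#(Z0.filter (fun z => l z = m)) : ℝ) with ht
          have hs0 : 0 ≤ s := Nat.cast_nonneg _
          have ht0 : 0 ≤ t := Nat.cast_nonneg _
          have e5 : (2 : ℝ) ^ (m + 1) = 2 * (2 : ℝ) ^ m := by rw [zpow_add_one₀ (by norm_num)]; ring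
          have e6 : (2 : ℝ) ^ (q + 1) = 2 * (2 : ℝ) ^ q := by rw [zpow_add_one₀ (by norm_num)]; ring
          have e7 : (4 : ℝ) ^ q = (2 : ℝ) ^ q * (2 : ℝ) ^ q := by rw [← mul_zpow]; norm_num
          have e8 : (4 : ℝ) ^ m = (2 : ℝ) ^ m * (2 : ℝ) ^ m := by rw [← mul_zpow]; norm_num
          rw [Real.sqrt_mul ht0, e5, e6, e7, e8]
          have q1 : √t * √t = t := Real.mul_self_sqrt ht0
          have q2 : √s * √s = s := Real.mul_self_sqrt hs0
          have q3 : 0 ≤ (2 ^ q * √s - 2 ^ m * √t) ^ 2 := sq_nonneg _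
          have q4 : 2 * ((2 ^ m * √t) * (2 ^ q * √s)) ≤ 2 ^ q * 2 ^ q * s + 2 ^ m * 2 ^ m * t := by
            have : (2 ^ q * √s - 2 ^ m * √t) ^ 2 = 2 ^ q * 2 ^ q * (√s * √s) + 2 ^ m * 2 ^ m * (√t * √t) - 2 * ((2 ^ m * √t) * (2 ^ q * √s)) := by ring
            rw [q1, q2] at this
            linarith
          calc 4 * (2 * 2 ^ m) * (2 * 2 ^ q) * (β * (√t * √s)) = 8 * β * (2 * ((2 ^ m * √t) * (2 ^ q * √s))) := by ring
            _ ≤ 8 * β * (2 ^ q * 2 ^ q * s + 2 ^ m * 2 ^ m * t) := mul_le_mul_of_nonneg_left q4 (by positivity)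
      · rw [if_neg hqm]
        have e4 : ∑ z ∈ Z0.filter (fun z => l z = m), ∑ j ∈ J0.filter (fun j => k j = q),
            (if |k j - l z| ≤ γ then y z * a z j * x j else 0) = 0 := by
          refine sum_eq_zero fun z hz => sum_eq_zero fun j hj => ?_
          rw [if_neg]
          rw [(mem_filter.1 hz).2, (mem_filter.1 hj).2]
          exact hqm
        rw [e4, abs_zero]
    have h2 : ∀ m ∈ LL, |∑ q ∈ KK, ∑ z ∈ Z0.filter (fun z => l z = m), ∑ j ∈ J0.filter (fun j => k j = q),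
        (if |k j - l z| ≤ γ then y z * a z j * x j else 0)| ≤
        ∑ q ∈ KK, if |q - m| ≤ γ then 8 * β * ((4 : ℝ) ^ q * #(J0.filter (fun j => k j = q)) + (4 : ℝ) ^ m * #(Z0.filter (fun z => l z = m))) else 0 :=
      fun m hm => (abs_sum_le_sum_abs _ _).trans (sum_le_sum fun q hq => h1 m hm q hq)
    refine (abs_sum_le_sum_abs _ _).trans ((sum_le_sum h2).trans ?_)
    -- split
    have e5 : ∀ m q : ℤ, (if |q - m| ≤ γ then 8 * β * ((4 : ℝ) ^ q * #(J0.filter (fun j => k j = q)) + (4 : ℝ) ^ m * #(Z0.filter (fun z => l z = m))) else 0) =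
        (if |q - m| ≤ γ then 8 * β * ((4 : ℝ) ^ q * #(J0.filter (fun j => k j = q))) else 0) +
        (if |q - m| ≤ γ then 8 * β * ((4 : ℝ) ^ m * #(Z0.filter (fun z => l z = m))) else 0) := by
      intro m q
      split_ifs <;> ring
    have hcard : ∀ (s : Finset ℤ) (m : ℤ), (#(s.filter (fun q => |q - m| ≤ γ)) : ℝ) ≤ 2 * γ + 1 := by
      intro s m
      have h3 : s.filter (fun q => |q - m| ≤ γ) ⊆ Icc (m - γ) (m + γ) := by
        intro q hq
        have h4 := abs_le.1 (mem_filter.1 hq).2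
        rw [mem_Icc]
        omega
      have h4 : #(s.filter (fun q => |q - m| ≤ γ)) ≤ 2 * γ + 1 := by
        refine (card_le_card h3).trans ?_
        rw [Int.card_Icc]
        omega
      exact_mod_cast h4
    have g1 : ∑ m ∈ LL, ∑ q ∈ KK, (if |q - m| ≤ γ then 8 * β * ((4 : ℝ) ^ q * #(J0.filter (fun j => k j = q))) else 0) ≤
        8 * β * (2 * γ + 1) * X := by
      rw [sum_comm]
      have h3 : ∀ q ∈ KK, ∑ m ∈ LL, (if |q - m| ≤ γ then 8 * β * ((4 : ℝ) ^ q * #(J0.filter (fun j => k j = q))) else 0) ≤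
          (8 * β * (2 * γ + 1)) * ((4 : ℝ) ^ q * #(J0.filter (fun j => k j = q))) := by
        intro q _
        rw [← sum_filter, sum_const, nsmul_eq_mul]
        have h4 : (#(LL.filter (fun m => |q - m| ≤ γ)) : ℝ) ≤ 2 * γ + 1 := by
          have h5 : LL.filter (fun m => |q - m| ≤ γ) = LL.filter (fun m => |m - q| ≤ γ) := by
            refine filter_congr fun m _ => ?_
            rw [abs_sub_comm]
          rw [h5]
          exact hcard LL q
        calc _ ≤ (2 * γ + 1) * (8 * β * ((4 : ℝ) ^ q * #(J0.filter (fun j => k j = q)))) :=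
              mul_le_mul_of_nonneg_right h4 (mul_nonneg (mul_nonneg (by norm_num) hβ.le) (mul_nonneg (zpow_nonneg (by norm_num) _) (Nat.cast_nonneg _)))
          _ = _ := by ring
      refine (sum_le_sum h3).trans ?_
      rw [← mul_sum]
      exact mul_le_mul_of_nonneg_left (BL_cls x) (by positivity)
    have g2 : ∑ m ∈ LL, ∑ q ∈ KK, (if |q - m| ≤ γ then 8 * β * ((4 : ℝ) ^ m * #(Z0.filter (fun z => l z = m))) else 0) ≤
        8 * β * (2 * γ + 1) * Y := by
      have h3 : ∀ m ∈ LL, ∑ q ∈ KK, (if |q - m| ≤ γ then 8 * β * ((4 : ℝ) ^ m * #(Z0.filter (fun z => l z = m))) else 0) ≤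
          (8 * β * (2 * γ + 1)) * ((4 : ℝ) ^ m * #(Z0.filter (fun z => l z = m))) := by
        intro m _
        rw [← sum_filter, sum_const, nsmul_eq_mul]
        calc _ ≤ (2 * γ + 1) * (8 * β * ((4 : ℝ) ^ m * #(Z0.filter (fun z => l z = m)))) :=
              mul_le_mul_of_nonneg_right (hcard KK m) (mul_nonneg (mul_nonneg (by norm_num) hβ.le) (mul_nonneg (zpow_nonneg (by norm_num) _) (Nat.cast_nonneg _)))
          _ = _ := by ring
      refine (sum_le_sum h3).trans ?_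
      rw [← mul_sum]
      exact mul_le_mul_of_nonneg_left (BL_cls y) (by positivity)
    rw [sum_congr rfl fun m _ => (sum_congr rfl fun q _ => e5 m q).trans sum_add_distrib, sum_add_distrib]
    calc _ ≤ 8 * β * (2 * γ + 1) * X + 8 * β * (2 * γ + 1) * Y := add_le_add g1 g2
      _ = _ := by ring
  rw [e0]
  have e9 : ∑ z ∈ Z0, ∑ j ∈ J0, y z * a z j * x j =
      ∑ z ∈ Z0, ∑ j ∈ J0, (if |k j - l z| ≤ γ then y z * a z j * x j else 0) +
      ∑ z ∈ Z0, ∑ j ∈ J0, (if l z + γ < k j then y z * a z j * x j else 0) +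
      ∑ z ∈ Z0, ∑ j ∈ J0, (if k j + γ < l z then y z * a z j * x j else 0) := by
    rw [← sum_add_distrib, ← sum_add_distrib]
    refine sum_congr rfl fun z _ => ?_
    rw [← sum_add_distrib, ← sum_add_distrib]
    exact sum_congr rfl fun j _ => e2 z j
  rw [e9]
  refine (abs_add_three _ _ _).trans ?_
  calc _ ≤ 8 * β * (2 * γ + 1) * (X + Y) + β * X + β * Y := add_le_add (add_le_add hnear f1) f2
    _ = _ := by ring

theorem BL : BL_stmt := by
  refine ⟨50, by norm_num, ?_⟩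
  intro Z J _ _ a L β hβ hβL hr hc h x y
  set r : ℝ := L / β with hr0
  have hr1 : 1 ≤ r := (one_le_div hβ).2 hβL
  set γ : ℕ := ⌈Real.logb 2 r⌉₊ with hγ
  have hlb : 0 ≤ Real.logb 2 r := Real.logb_nonneg (by norm_num) hr1
  have hγ1 : L ≤ β * 2 ^ γ := by
    have h1 : Real.logb 2 r ≤ (γ : ℝ) := Nat.le_ceil _
    have h2 : r ≤ (2 : ℝ) ^ (γ : ℝ) := (Real.logb_le_iff_le_rpow (by norm_num) (by linarith)).1 h1
    rw [Real.rpow_natCast] at h2
    calc L = β * r := by rw [hr0]; field_simp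
      _ ≤ β * 2 ^ γ := mul_le_mul_of_nonneg_left h2 hβ.le
  have hγ2 : (γ : ℝ) ≤ 1 + 3 / 2 * Real.log r := by
    have h1 : (γ : ℝ) < Real.logb 2 r + 1 := Nat.ceil_lt_add_one hlb
    have h2 : Real.logb 2 r ≤ 3 / 2 * Real.log r := by
      unfold Real.logb
      rw [div_le_iff₀ (Real.log_pos (by norm_num))]
      have h3 : 0 ≤ Real.log r := Real.log_nonneg hr1
      have h4 : 2 / 3 ≤ Real.log 2 := by
        have := Real.log_two_gt_d9
        linarith
      nlinarith
    linarith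
  have hlr : 0 ≤ Real.log r := Real.log_nonneg hr1
  set B : ℝ := 25 * β * (1 + Real.log r) with hB
  have hB0 : 0 ≤ B := by positivity
  -- the sum form
  have key : ∀ (x : J → ℝ) (y : Z → ℝ), |∑ z, ∑ j, y z * a z j * x j| ≤ B * (∑ j, x j ^ 2 + ∑ z, y z ^ 2) := by
    intro x y
    refine (BL_main a L β hβ γ hγ1 hr hc h x y).trans ?_
    have hS : 0 ≤ ∑ j, x j ^ 2 + ∑ z, y z ^ 2 := add_nonneg (sum_nonneg fun _ _ => sq_nonneg _) (sum_nonneg fun _ _ => sq_nonneg _)
    refine mul_le_mul_of_nonneg_right ?_ hS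
    rw [hB]
    nlinarith
  set X : ℝ := ∑ j, x j ^ 2 with hX
  set Y : ℝ := ∑ z, y z ^ 2 with hY
  have hX0 : 0 ≤ X := sum_nonneg fun _ _ => sq_nonneg _
  have hY0 : 0 ≤ Y := sum_nonneg fun _ _ => sq_nonneg _
  have hKB : 50 * β * (1 + Real.log (L / β)) = 2 * B := by rw [hB]; ring
  rw [hKB]
  rcases hX0.eq_or_lt with h0 | hXp
  · have hx : ∀ j, x j = 0 := by
      intro j
      have := (sum_eq_zero_iff_of_nonneg (fun _ _ => sq_nonneg _)).1 h0.symm j (mem_univ j)
      exact pow_eq_zero_iff (two_ne_zero) |>.1 this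
    have : ∑ z, ∑ j, y z * a z j * x j = 0 := sum_eq_zero fun z _ => sum_eq_zero fun j _ => by rw [hx j, mul_zero]
    rw [this, abs_zero]
    positivity
  rcases hY0.eq_or_lt with h0 | hYp
  · have hy : ∀ z, y z = 0 := by
      intro z
      have := (sum_eq_zero_iff_of_nonneg (fun _ _ => sq_nonneg _)).1 h0.symm z (mem_univ z)
      exact pow_eq_zero_iff (two_ne_zero) |>.1 this
    have : ∑ z, ∑ j, y z * a z j * x j = 0 := sum_eq_zero fun z _ => sum_eq_zero fun j _ => by rw [hy z]; ring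
    rw [this, abs_zero]
    positivity
  -- scaling
  set c : ℝ := √(√(Y / X)) with hc0
  have hq : 0 < Y / X := div_pos hYp hXp
  have hcp : 0 < c := Real.sqrt_pos.2 (Real.sqrt_pos.2 hq)
  have hc2 : c ^ 2 = √(Y / X) := Real.sq_sqrt (Real.sqrt_nonneg _)
  have k1 := key (fun j => c * x j) (fun z => c⁻¹ * y z)
  have e1 : ∑ z, ∑ j, c⁻¹ * y z * a z j * (c * x j) = ∑ z, ∑ j, y z * a z j * x j := by
    refine sum_congr rfl fun z _ => sum_congr rfl fun j _ => ?_
    field_simp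
  have e2 : ∑ j, (c * x j) ^ 2 = c ^ 2 * X := by
    rw [hX, mul_sum]
    exact sum_congr rfl fun j _ => by ring
  have e3 : ∑ z, (c⁻¹ * y z) ^ 2 = (c ^ 2)⁻¹ * Y := by
    rw [hY, mul_sum]
    exact sum_congr rfl fun z _ => by rw [mul_pow, inv_pow]
  rw [e1, e2, e3, hc2] at k1
  have e4 : √(Y / X) * X = √(Y * X) := by
    have h1 : X = √(X ^ 2) := (Real.sqrt_sq hX0).symm
    nth_rewrite 2 [h1]
    rw [← Real.sqrt_mul hq.le]
    congr 1
    field_simp
  have e5 : (√(Y / X))⁻¹ * Y = √(Y * X) := by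
    have h1 : Y = √(Y ^ 2) := (Real.sqrt_sq hY0).symm
    rw [← Real.sqrt_inv]
    nth_rewrite 2 [h1]
    rw [← Real.sqrt_mul (inv_nonneg.2 hq.le)]
    congr 1
    field_simp
  rw [e4, e5] at k1
  calc |∑ z, ∑ j, y z * a z j * x j| ≤ B * (√(Y * X) + √(Y * X)) := k1
    _ = 2 * B * √(Y * X) := by ring

end DH5
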